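import Pool.Agent.H52.Tri.Rct
import Pool.Agent.H7.UC.Ring

set_option autoImplicit false
open Finset

/-! MP_2e6055, RSW on T: from crossings of long rectangles to one annulus. -/

namespace Pool.Agent.H98.Tri

open Pool.Agent.H75.Perc Pool.Agent.H52.Tri
open Pool.Agent.H7.UC hiding X

/-- open hexagon of radius `M` -/
def Nlt (M : ℤ) (z : ℤ × ℤ) : Prop :=
  2 * z.1 + z.2 < M ∧ -(2 * z.1 + z.2) < M ∧ z.1 - z.2 < M ∧ z.2 - z.1 < M ∧
    z.1 + 2 * z.2 < M ∧ -(z.1 + 2 * z.2) < M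

theorem nlt_rotI {M : ℤ} {z : ℤ × ℤ} (h : Nlt M z) : Nlt M (rotI z) := by
  unfold Nlt rotI at *
  simp only at *
  omega

theorem nlt_rotI_iter {M : ℤ} {z : ℤ × ℤ} (h : Nlt M z) (k : ℕ) : Nlt M (rotI^[k] z) := by
  induction k with
  | zero => exact h
  | succ k ih => rw [Function.iterate_succ_apply']; exact nlt_rotI ih

theorem TA_rotI {u v : ℤ × ℤ} (h : TA u v) : TA (rotI u) (rotI v) := by
  have h' := h.cases
  apply TA.of_cases
  unfold rotI
  simp only
  omega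

theorem TA_rotI_iter {u v : ℤ × ℤ} (h : TA u v) (k : ℕ) : TA (rotI^[k] u) (rotI^[k] v) := by
  induction k with
  | zero => exact h
  | succ k ih => rw [Function.iterate_succ_apply', Function.iterate_succ_apply']; exact TA_rotI ih

theorem rot_inj {u v : ℤ × ℤ} (h : rot u = rot v) : u = v := by
  rw [← rotI_rot u, h, rotI_rot]

theorem rot_iter_inj (k : ℕ) : Function.Injective (rot^[k]) :=
  Function.Injective.iterate (fun _ _ h => rot_inj h) k

theorem rot_rotI_iter (k : ℕ) (z : ℤ × ℤ) : rot^[k] (rotI^[k] z) = z :=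
  (Function.LeftInverse.iterate (fun z => rot_rotI z) k) z

/-- one of the six rotations makes `X` large -/
theorem exists_rot {M : ℤ} {w : ℤ × ℤ} (h : ¬ Nlt M w) : ∃ k < 6, M ≤ X (rotI^[k] w) := by
  by_contra hn
  push Not at hn
  apply h
  have h0 := hn 0 (by norm_num)
  have h1 := hn 1 (by norm_num)
  have h2 := hn 2 (by norm_num)
  have h3 := hn 3 (by norm_num)
  have h4 := hn 4 (by norm_num)
  have h5 := hn 5 (by norm_num)
  simp only [Function.iterate_succ_apply', Function.iterate_zero_apply, X, rotI] at h0 h1 h2 h3 h4 h5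
  unfold Nlt
  omega

/-- the piece of a long path inside the side rectangle -/
theorem side {m : ℤ} (hm : 1 ≤ m) {S : ℤ × ℤ → Prop} {f z w : ℤ × ℤ}
    (hf : Nlt (6 * m + 1) f) (h1 : Pa (fun z => S z ∧ Nlt (12 * m) z) f z) (h2 : TA z w) (hw : S w)
    (hX : 12 * m ≤ X w) :
    ∃ p, Pa (fun z => S z ∧ -(8 * m) ≤ z.2 ∧ z.2 ≤ 8 * m) p w ∧ X p ≤ 6 * m := by
  -- the path from `f` to `w`
  have hP : Pa (fun y => S y ∧ (Nlt (12 * m) y ∨ y = w)) f w := by
    refine (h1.mono fun y hy => ⟨hy.1, Or.inl hy.2⟩).tail h2 ⟨hw, Or.inr rfl⟩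
  have hz12 : Nlt (12 * m) z := h1.right.2
  have hwrow : -(8 * m) ≤ w.2 ∧ w.2 ≤ 8 * m := by
    have h3 := h2.cases
    unfold Nlt at hz12
    unfold X at hX
    omega
  have hfX : X f ≤ 6 * m := by
    unfold Nlt at hf
    unfold X
    omega
  rcases hP.last (K := fun y => X y ≤ 6 * m) (by omega) with h | ⟨y, y', h3, h4, h5, h6⟩
  · exact absurd hfX h.left.2
  · refine ⟨y, ?_, h4⟩
    have hy := h3.right
    have hy' := h6.left
    have hyn : Nlt (12 * m) y := by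
      rcases hy.2 with h | h
      · exact h
      · rw [h] at h4; omega
    have hrow : -(8 * m) ≤ y.2 ∧ y.2 ≤ 8 * m := by
      have h7 := h5.cases
      have h8 := hy'.2
      unfold Nlt at hyn
      unfold X at h4 h8
      omega
    refine Pa.head ⟨hy.1, hrow⟩ h5 (h6.mono ?_)
    rintro u ⟨⟨hu1, hu2⟩, hu3⟩
    refine ⟨hu1, ?_⟩
    rcases hu2 with h | h
    · unfold Nlt at h
      unfold X at hu3
      omega
    · rw [h]; exact hwrow

/-- position of the side rectangle `k` -/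
def epos (m : ℤ) (c0 : ℤ × ℤ) (k : ℕ) (z : ℤ × ℤ) : ℤ × ℤ := c0 + rot^[k] (z + (7 * m, -(8 * m)))

theorem epos_inj (m : ℤ) (c0 : ℤ × ℤ) (k : ℕ) : Function.Injective (epos m c0 k) := by
  intro u v h
  unfold epos at h
  have h1 := rot_iter_inj k (add_left_cancel h)
  exact add_right_cancel h1

/-- the side rectangle `k` is crossed the long way in `η` -/
def CC (m : ℤ) (c0 : ℤ × ℤ) (k : ℕ) (η : Finset (ℤ × ℤ)) : Prop :=
  ∃ p q : ℤ × ℤ, p.2 = 0 ∧ q.2 = 16 * m ∧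
    Pa (fun z => epos m c0 k z ∈ η ∧ z ∈ Rct (6 * m) (16 * m)) p q

theorem CC_inc (m : ℤ) (c0 : ℤ × ℤ) (k : ℕ) : Inc (CC m c0 k) := by
  rintro ω ω' h ⟨p, q, h1, h2, h3⟩
  exact ⟨p, q, h1, h2, h3.mono fun z hz => ⟨h hz.1, hz.2⟩⟩

theorem CC_prob (m : ℤ) (c0 : ℤ × ℤ) (k : ℕ) {E : Finset (ℤ × ℤ)}
    (hE : (Rct (6 * m) (16 * m)).map ⟨epos m c0 k, epos_inj m c0 k⟩ ⊆ E) :
    pV (6 * m) (16 * m) ≤ Pr E (CC m c0 k) := by
  refine le_trans (le_of_eq ?_) (Pr_inc hE (CC_inc m c0 k))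
  rw [Pr_map]
  unfold pV
  apply Pr_congr
  intro ω hω
  unfold VCr CC
  have h : ∀ z, (z ∈ ω ∧ z ∈ Rct (6 * m) (16 * m)) ↔
      (epos m c0 k z ∈ ω.map ⟨epos m c0 k, epos_inj m c0 k⟩ ∧ z ∈ Rct (6 * m) (16 * m)) := by
    intro z
    have : epos m c0 k z ∈ ω.map ⟨epos m c0 k, epos_inj m c0 k⟩ ↔ z ∈ ω := by
      rw [mem_map]
      constructor
      · rintro ⟨y, hy, he⟩
        rwa [← epos_inj m c0 k he]
      · intro hz; exact ⟨z, hz, rfl⟩
    rw [this]
  have h' : (fun z => z ∈ ω ∧ z ∈ Rct (6 * m) (16 * m)) = (fun z =>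
      epos m c0 k z ∈ ω.map ⟨epos m c0 k, epos_inj m c0 k⟩ ∧ z ∈ Rct (6 * m) (16 * m)) :=
    funext fun z => propext (h z)
  rw [h']

/-- six crossed rectangles off `ω` exclude an arm of `ω` -/
theorem no_arm {m : ℤ} (hm : 1 ≤ m) {c0 : ℤ × ℤ} {E ω : Finset (ℤ × ℤ)}
    (hC : ∀ k < 6, CC m c0 k (E \ ω)) {f g : ℤ × ℤ} (hf : Nlt (6 * m + 1) (f - c0))
    (hg : ¬ Nlt (12 * m) (g - c0)) : ¬ Pa (fun z => z ∈ ω) f g := by
  intro hP
  -- translate
  have hP' : Pa (fun z => c0 + z ∈ ω) (f - c0) (g - c0) := by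
    refine pa_map (fun z => z - c0) ?_ ?_ hP
    · intro a b hab
      unfold TA at hab ⊢
      rwa [sub_sub_sub_cancel_right]
    · intro z hz
      rwa [add_sub_cancel]
  have hf12 : Nlt (12 * m) (f - c0) := by
    unfold Nlt at hf ⊢; omega
  rcases hP'.first (K := fun z => ¬ Nlt (12 * m) z) (by simpa using hf12) with h | ⟨z, w, h1, h2, h3, h4⟩
  · have := h.right.2
    exact this hg
  obtain ⟨k, hk, hX⟩ := exists_rot h3
  -- rotate
  set S : ℤ × ℤ → Prop := fun z => c0 + rot^[k] z ∈ ω with hS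
  have h1' : Pa (fun z => S z ∧ Nlt (12 * m) z) (rotI^[k] (f - c0)) (rotI^[k] z) := by
    refine pa_map (rotI^[k]) (fun a b hab => TA_rotI_iter hab k) ?_ h1
    rintro z ⟨hz1, hz2⟩
    refine ⟨?_, nlt_rotI_iter (by simpa using hz2) k⟩
    simp only [hS]
    rwa [rot_rotI_iter]
  have hw : S (rotI^[k] w) := by
    simp only [hS]
    rw [rot_rotI_iter]
    exact h4.left
  obtain ⟨p, hp, hpX⟩ := side hm (nlt_rotI_iter hf k) h1' (TA_rotI_iter h2 k) hw hX
  -- the crossing off `ω`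
  obtain ⟨r, s, hr, hs, hQ⟩ := hC k hk
  have hQ' : Pa (fun z => c0 + rot^[k] z ∉ ω ∧ 6 * m ≤ X z ∧ X z ≤ 12 * m)
      (r + (7 * m, -(8 * m))) (s + (7 * m, -(8 * m))) := by
    refine pa_map (fun z => z + (7 * m, -(8 * m))) ?_ ?_ hQ
    · intro a b hab
      unfold TA at hab ⊢
      rwa [add_sub_add_right_eq_sub]
    · rintro z ⟨hz1, hz2⟩
      rw [mem_Rct] at hz2
      refine ⟨(mem_sdiff.1 hz1).2, ?_, ?_⟩
      · unfold X at *; simp only [Prod.fst_add, Prod.snd_add]; omega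
      · unfold X at *; simp only [Prod.fst_add, Prod.snd_add]; omega
  obtain ⟨z, hz1, hz2⟩ := Pool.Agent.H52.Tri.cross (c := -(8 * m)) (d := 8 * m) hp (fun z hz => hz.2) hQ'
    (by simp only [Prod.snd_add]; omega) (by simp only [Prod.snd_add]; omega)
    (fun z hz he => by
      have := hz.2.1
      unfold X at this hpX
      omega)
    (fun z hz he => by
      have := hz.2.2
      unfold X at this hX
      omega)
  exact hz2.1 hz1.1

theorem Pr_flip (E : Finset (ℤ × ℤ)) (A : Finset (ℤ × ℤ) → Prop) :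
    Pr E (fun ω => A (E \ ω)) = Pr E A := by
  classical
  rw [Pr_eq, Pr_eq]
  congr 2
  apply card_bij (fun ω _ => E \ ω)
  · intro ω hω
    rw [mem_filter, mem_powerset] at hω ⊢
    exact ⟨sdiff_subset, hω.2⟩
  · intro a ha b hb h
    rw [mem_filter, mem_powerset] at ha hb
    rw [← Finset.sdiff_sdiff_eq_self ha.1, h, Finset.sdiff_sdiff_eq_self hb.1]
  · intro b hb
    rw [mem_filter, mem_powerset] at hb
    refine ⟨E \ b, ?_, Finset.sdiff_sdiff_eq_self hb.1⟩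
    rw [mem_filter, mem_powerset]
    refine ⟨sdiff_subset, ?_⟩
    rw [Finset.sdiff_sdiff_eq_self hb.1]
    exact hb.2

theorem Pr_disj {E : Finset (ℤ × ℤ)} {A B : Finset (ℤ × ℤ) → Prop}
    (h : ∀ ω, ω ⊆ E → A ω → ¬ B ω) : Pr E A + Pr E B ≤ 1 := by
  classical
  rw [Pr_eq, Pr_eq, ← add_div, div_le_one (by positivity)]
  have h1 : (E.powerset.filter A).card + (E.powerset.filter B).card ≤ E.powerset.card := by
    rw [← card_union_of_disjoint]
    · exact card_le_card (union_subset (filter_subset _ _) (filter_subset _ _))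
    · rw [disjoint_filter]
      intro ω hω ha
      exact h ω (mem_powerset.1 hω) ha
  rw [card_powerset] at h1
  exact_mod_cast h1

theorem om_eq : om = 1 / 2 + (Real.sqrt 3 / 2 : ℝ) * Complex.I := by
  unfold om
  have : (Real.pi : ℂ) * Complex.I / 3 = ((Real.pi / 3 : ℝ) : ℂ) * Complex.I := by push_cast; ring
  rw [this, Complex.exp_mul_I, ← Complex.ofReal_cos, ← Complex.ofReal_sin, Real.cos_pi_div_three,
    Real.sin_pi_div_three]
  push_cast; ring

theorem om_norm : ‖om‖ = 1 := by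
  unfold om
  have : (Real.pi : ℂ) * Complex.I / 3 = ((Real.pi / 3 : ℝ) : ℂ) * Complex.I := by push_cast; ring
  rw [this, Complex.norm_exp_ofReal_mul_I]

theorem ctr_norm (z : Fc) : ‖ctr z‖ ^ 2 = (z.1 : ℝ) ^ 2 + z.1 * z.2 + (z.2 : ℝ) ^ 2 := by
  rw [← Complex.normSq_eq_norm_sq]
  unfold ctr
  rw [om_eq, Complex.normSq_apply]
  have h3 : Real.sqrt 3 ^ 2 = 3 := Real.sq_sqrt (by norm_num)
  simp
  ring_nf
  rw [h3]
  ring

theorem ctr_add (u v : Fc) : ctr (u - v) = ctr u - ctr v := by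
  unfold ctr
  simp only [Prod.fst_sub, Prod.snd_sub]
  push_cast
  ring

theorem exists_near (x : ℂ) : ∃ c0 : Fc, ‖ctr c0 - x‖ ≤ 1 := by
  have h3 : (0 : ℝ) < Real.sqrt 3 := Real.sqrt_pos.2 (by norm_num)
  set v : ℝ := x.im / (Real.sqrt 3 / 2) with hv
  set u : ℝ := x.re - v / 2 with hu
  have hx : x = (u : ℂ) + (v : ℂ) * om := by
    rw [om_eq]
    have hvx : x.im = v * (Real.sqrt 3 / 2) := by rw [hv]; field_simp
    have hux : x.re = u + v / 2 := by rw [hu]; ring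
    clear_value v u
    apply Complex.ext
    · simp [hux]; ring
    · simp [hvx]
  refine ⟨(round u, round v), ?_⟩
  have e : ctr (round u, round v) - x = (((round u : ℝ) - u : ℝ) : ℂ) +
      (((round v : ℝ) - v : ℝ) : ℂ) * om := by
    rw [hx]
    unfold ctr
    push_cast
    ring
  rw [e]
  refine le_trans (norm_add_le _ _) ?_
  rw [norm_mul, om_norm, mul_one, Complex.norm_real, Complex.norm_real, Real.norm_eq_abs,
    Real.norm_eq_abs, abs_sub_comm, abs_sub_comm (round v : ℝ)]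
  linarith [abs_sub_round u, abs_sub_round v]

/-- small norm: inside the hexagon -/
theorem nlt_of_norm {z : Fc} {m : ℤ} (h : 2 * ‖ctr z‖ ≤ 6 * m) : Nlt (6 * m + 1) z := by
  have h1 := ctr_norm z
  have h0 := norm_nonneg (ctr z)
  have key : ∀ t : ℤ, ((t : ℝ)) ^ 2 ≤ 4 * ‖ctr z‖ ^ 2 → t < 6 * m + 1 := by
    intro t ht
    have h2 : |(t : ℝ)| ≤ 2 * ‖ctr z‖ := by
      apply abs_le_of_sq_le_sq _ (by positivity)
      nlinarith
    have h3 : (t : ℝ) ≤ 6 * m := le_trans (le_abs_self _) (le_trans h2 h)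
    have h4 : t ≤ 6 * m := by exact_mod_cast h3
    omega
  unfold Nlt
  refine ⟨key _ ?_, key _ ?_, key _ ?_, key _ ?_, key _ ?_, key _ ?_⟩ <;> rw [h1] <;> push_cast <;>
    nlinarith [sq_nonneg ((z.1 : ℝ)), sq_nonneg ((z.2 : ℝ)), sq_nonneg ((z.1 : ℝ) + z.2)]

/-- large norm: outside the hexagon -/
theorem not_nlt_of_norm {z : Fc} {m : ℤ} (hm : 1 ≤ m) (h : (17 / 2 : ℝ) * m ≤ ‖ctr z‖) :
    ¬ Nlt (12 * m) z := by
  intro hn
  have h1 := ctr_norm z
  unfold Nlt at hn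
  obtain ⟨a1, a2, a3, a4, a5, a6⟩ := hn
  have b1 : |(2 * (z.1 : ℝ) + z.2)| ≤ 12 * m := by
    rw [abs_le]; constructor
    · have : -(2 * z.1 + z.2) ≤ 12 * m := by omega
      have : -(2 * (z.1 : ℝ) + z.2) ≤ 12 * m := by exact_mod_cast this
      linarith
    · have : (2 * z.1 + z.2) ≤ 12 * m := by omega
      exact_mod_cast this
  have b2 : |((z.1 : ℝ) - z.2)| ≤ 12 * m := by
    rw [abs_le]; constructor
    · have : -(z.1 - z.2) ≤ 12 * m := by omega
      have : -((z.1 : ℝ) - z.2) ≤ 12 * m := by exact_mod_cast this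
      linarith
    · have : (z.1 - z.2) ≤ 12 * m := by omega
      exact_mod_cast this
  have b3 : |((z.1 : ℝ) + 2 * z.2)| ≤ 12 * m := by
    rw [abs_le]; constructor
    · have : -(z.1 + 2 * z.2) ≤ 12 * m := by omega
      have : -((z.1 : ℝ) + 2 * z.2) ≤ 12 * m := by exact_mod_cast this
      linarith
    · have : (z.1 + 2 * z.2) ≤ 12 * m := by omega
      exact_mod_cast this
  have hm' : (1 : ℝ) ≤ m := by exact_mod_cast hm
  have c1 := sq_le_sq' (by linarith [(abs_le.1 b1).1]) (abs_le.1 b1).2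
  have c2 := sq_le_sq' (by linarith [(abs_le.1 b2).1]) (abs_le.1 b2).2
  have c3 := sq_le_sq' (by linarith [(abs_le.1 b3).1]) (abs_le.1 b3).2
  have d : ((17 / 2 : ℝ) * m) ^ 2 ≤ ‖ctr z‖ ^ 2 := by
    apply pow_le_pow_left₀ (by positivity) h
  rw [h1] at d
  nlinarith

open Classical in
/-- **ring_of** -/
theorem ring_of (h : ∀ m : ℕ, 1 ≤ m → (1 : ℝ) / 2 ^ 22 ≤ pV (6 * m) (16 * m)) : D5r := by
  refine ⟨16, by norm_num, 1 - (1 / 2 ^ 22) ^ 6, ?_, 1, le_refl _, ?_⟩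
  · have : (0 : ℝ) < (1 / 2 ^ 22) ^ 6 := by positivity
    linarith
  intro E0 x r hr
  obtain ⟨c0, hc0⟩ := exists_near x
  set m : ℕ := ⌈(r + 1) / 3⌉₊ with hmdef
  have hm1 : (r + 1) / 3 ≤ m := Nat.le_ceil _
  have hm2 : (m : ℝ) < (r + 1) / 3 + 1 := Nat.ceil_lt_add_one (by positivity)
  have hm : 1 ≤ m := by
    have : (0 : ℝ) < m := lt_of_lt_of_le (by positivity) hm1
    exact_mod_cast this
  set E : Finset (ℤ × ℤ) := E0 ∪ (range 6).biUnion (fun k =>
    (Rct (6 * m) (16 * m)).map ⟨epos m c0 k, epos_inj m c0 k⟩) with hE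
  have hsub : ∀ k < 6, (Rct (6 * m) (16 * m)).map ⟨epos m c0 k, epos_inj m c0 k⟩ ⊆ E := by
    intro k hk
    refine subset_trans ?_ subset_union_right
    exact subset_biUnion_of_mem (fun k =>
      (Rct (6 * m) (16 * m)).map ⟨epos m c0 k, epos_inj m c0 k⟩) (mem_range.2 hk)
  have hinc : Inc (Arm x r (16 * r)) := fun ω ω' hω ha => Arm_mono hω ha
  have hP : (1 / 2 ^ 22 : ℝ) ^ 6 ≤ Pr E (fun ω => CC m c0 0 ω ∧ CC m c0 1 ω ∧ CC m c0 2 ω ∧
      CC m c0 3 ω ∧ CC m c0 4 ω ∧ CC m c0 5 ω) := by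
    have hp : ∀ k < 6, (1 / 2 ^ 22 : ℝ) ≤ Pr E (CC m c0 k) := fun k hk =>
      le_trans (by exact_mod_cast h m hm) (CC_prob m c0 k (hsub k hk))
    have hand : ∀ {A B : Finset (ℤ × ℤ) → Prop}, Inc A → Inc B → Inc (fun ω => A ω ∧ B ω) :=
      fun hA hB ω ω' hω hab => ⟨hA _ _ hω hab.1, hB _ _ hω hab.2⟩
    have i5 := CC_inc m c0 5
    have i4 := hand (CC_inc m c0 4) i5
    have i3 := hand (CC_inc m c0 3) i4
    have i2 := hand (CC_inc m c0 2) i3
    have i1 := hand (CC_inc m c0 1) i2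
    have g4 := Pr_harris E (CC_inc m c0 4) i5
    have g3 := Pr_harris E (CC_inc m c0 3) i4
    have g2 := Pr_harris E (CC_inc m c0 2) i3
    have g1 := Pr_harris E (CC_inc m c0 1) i2
    have g0 := Pr_harris E (CC_inc m c0 0) i1
    set t : ℝ := 1 / 2 ^ 22 with ht
    have ht0 : 0 < t := by positivity
    have q5 : t ≤ Pr E (CC m c0 5) := hp 5 (by norm_num)
    have q4 : t * t ≤ _ := le_trans (mul_le_mul (hp 4 (by norm_num)) q5 ht0.le (Pr_nonneg _ _)) g4
    have q3 : t * (t * t) ≤ _ :=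
      le_trans (mul_le_mul (hp 3 (by norm_num)) q4 (by positivity) (Pr_nonneg _ _)) g3
    have q2 : t * (t * (t * t)) ≤ _ :=
      le_trans (mul_le_mul (hp 2 (by norm_num)) q3 (by positivity) (Pr_nonneg _ _)) g2
    have q1 : t * (t * (t * (t * t))) ≤ _ :=
      le_trans (mul_le_mul (hp 1 (by norm_num)) q2 (by positivity) (Pr_nonneg _ _)) g1
    have q0 : t * (t * (t * (t * (t * t)))) ≤ _ :=
      le_trans (mul_le_mul (hp 0 (by norm_num)) q1 (by positivity) (Pr_nonneg _ _)) g0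
    refine le_trans (le_of_eq ?_) q0
    ring
  rw [← Pr_flip] at hP
  have hD := Pr_disj (E := E) (A := Arm x r (16 * r)) (B := fun ω => CC m c0 0 (E \ ω) ∧
      CC m c0 1 (E \ ω) ∧ CC m c0 2 (E \ ω) ∧ CC m c0 3 (E \ ω) ∧ CC m c0 4 (E \ ω) ∧
      CC m c0 5 (E \ ω)) (by
    rintro ω hω ⟨f, g, hf, hfx, hgx, hfg⟩ ⟨a0, a1, a2, a3, a4, a5⟩
    have hC : ∀ k < 6, CC m c0 k (E \ ω) := by
      intro k hk
      interval_cases k
      · exact a0
      · exact a1
      · exact a2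
      · exact a3
      · exact a4
      · exact a5
    have hmZ : (1 : ℤ) ≤ (m : ℤ) := by exact_mod_cast hm
    refine no_arm hmZ hC (f := f) (g := g) ?_ ?_ ⟨hf, ?_⟩
    · apply nlt_of_norm
      rw [ctr_add]
      have : ‖ctr f - ctr c0‖ ≤ r + 1 := by
        have e : ctr f - ctr c0 = (ctr f - x) - (ctr c0 - x) := by ring
        rw [e]
        exact le_trans (norm_sub_le _ _) (by linarith)
      push_cast
      linarith
    · apply not_nlt_of_norm hmZ
      rw [ctr_add]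
      have : 16 * r - 1 ≤ ‖ctr g - ctr c0‖ := by
        have e : ctr g - x = (ctr g - ctr c0) + (ctr c0 - x) := by ring
        have := norm_add_le (ctr g - ctr c0) (ctr c0 - x)
        rw [← e] at this
        linarith
      push_cast
      linarith
    · refine Relation.ReflTransGen.mono ?_ _ _ hfg
      rintro a b ⟨hb, hab⟩
      exact ⟨TA_iff_adjF.2 hab, hb⟩)
  have h1 : Pr E0 (Arm x r (16 * r)) ≤ Pr E (Arm x r (16 * r)) := Pr_inc subset_union_left hinc
  linarith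

end Pool.Agent.H98.Tri
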