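import Pool.Agent.H74.Tri.Iface

set_option autoImplicit false

/-! MP_2e6055, module TOP: Int1, TipU, Int2 (closed statements of helper74). -/

namespace Pool.Agent.H98.Tri

open Pool.Agent.H7.UC Pool.Agent.H74.Tri

theorem pb_black {ω : Fc → Bool} {p : Pos} (h : ω (ph p) = true) : pb (stp ω p) = pl p := by
  obtain ⟨v, k⟩ := p
  unfold stp; rw [if_pos h]
  show fc (nb (nb v (k + 1)) (k + 1)) (k + 1) = _
  rw [nb_nb]; rfl

theorem pb_white {ω : Fc → Bool} {p : Pos} (h : ω (ph p) = false) : pb (stp ω p) = pr p := by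
  obtain ⟨v, k⟩ := p
  unfold stp; rw [if_neg (by simp [h])]
  show fc (nb (nb v (k + 2)) (k + 2)) (k + 2) = _
  rw [nb_nb]; rfl

/-- positions whose edge lies in `U` are finitely many -/
theorem pos_finite (U : Finset Fc) : {p : Pos | inE U (pe p)}.Finite := by
  have h : {p : Pos | inE U (pe p)} ⊆ (↑(verts U ×ˢ (Finset.univ : Finset (Fin 3))) : Set Pos) := by
    rintro ⟨v, k⟩ hp
    rw [Finset.mem_coe, Finset.mem_product]
    exact ⟨mem_verts.2 (inV_of_inE hp).1, Finset.mem_univ _⟩
  exact (Finset.finite_toSet _).subset h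

/-- a step into `U` -/
theorem inE_step {U : Finset Fc} {ω : Fc → Bool} {p : Pos} (h : ph p ∈ U) :
    inE U (pe (stp ω p)) := by
  rw [inE_pe]
  cases hp : ω (ph p)
  · right; rw [(stp_white hp).2]; exact h
  · left; rw [(stp_black hp).1]; exact h

/-- a step out of `U` -/
theorem exit_step {U : Finset Fc} {ω : Fc → Bool} {p : Pos} (h : inE U (pe p)) (hb : Bi ω p)
    (hn : ¬ inE U (pe (stp ω p))) : IsExit U ω (stp ω p) := by
  rw [inE_pe] at h hn
  push Not at hn
  refine ⟨?_, hn.1, hn.2, hb.stp⟩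
  cases hp : ω (ph p)
  · rw [pb_white hp]
    rw [(stp_white hp).1, (stp_white hp).2] at hn
    tauto
  · rw [pb_black hp]
    rw [(stp_black hp).1, (stp_black hp).2] at hn
    tauto

/-- **Int1** -/
theorem int1 : Int1 := by
  classical
  intro U ω p hp
  obtain ⟨h1, h2, h3, hb⟩ := hp
  have hnp : ¬ inE U (pe p) := by rw [inE_pe]; tauto
  have hfirst : inE U (pe (orb ω p 1)) := by
    rw [orb_succ, orb_zero]; exact inE_step h1
  have hex : ∃ i, 1 ≤ i ∧ ¬ inE U (pe (orb ω p i)) := by
    by_contra hcon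
    push Not at hcon
    have hmaps : Set.MapsTo (fun i => orb ω p (i + 1)) Set.univ {q : Pos | inE U (pe q)} :=
      fun i _ => hcon (i + 1) (by omega)
    have hni : ¬ Set.InjOn (fun i => orb ω p (i + 1)) Set.univ := by
      intro hinj
      exact Set.infinite_univ (Set.Finite.of_finite_image
        ((pos_finite U).subset (Set.mapsTo_iff_image_subset.1 hmaps)) hinj)
    have key : ∀ i j, i < j → orb ω p (i + 1) ≠ orb ω p (j + 1) := by
      intro i j hij he
      have e1 : orb ω p (i + 1) = orb ω (orb ω p 0) (i + 1) := rfl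
      have e2 : orb ω p (j + 1) = orb ω (orb ω p (j - i)) (i + 1) := by
        rw [← orb_add]; congr 1; omega
      rw [e1, e2] at he
      have h4 := orb_inj (hb.orb 0) (hb.orb (j - i)) he
      apply hnp
      rw [orb_zero] at h4
      rw [h4]
      exact hcon _ (by omega)
    apply hni
    intro i _ j _ he
    by_contra hne
    rcases lt_or_gt_of_ne hne with h | h
    · exact key i j h he
    · exact key j i h he.symm
  obtain ⟨h4, h5⟩ := Nat.find_spec hex
  set i := Nat.find hex with hi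
  have hmin : ∀ j, 1 ≤ j → j < i → inE U (pe (orb ω p j)) := by
    intro j hj hji
    by_contra hn
    exact Nat.find_min hex hji ⟨hj, hn⟩
  have hi2 : 2 ≤ i := by
    by_contra hlt
    have : i = 1 := by omega
    rw [this] at h5
    exact h5 hfirst
  refine ⟨i - 1, by omega, fun j hj hji => hmin j hj (by omega), ?_⟩
  have e : i - 1 + 1 = i := by omega
  have h6 := hmin (i - 1) (by omega) (by omega)
  rw [orb_succ]
  apply exit_step h6 (hb.orb _)
  rw [← orb_succ, e]
  exact h5

theorem fin3_a : ∀ k l : Fin 3, k ≠ l → l = k + 1 ∨ l = k + 2 := by decide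

/-- the tip at a vertex is unique -/
theorem tip_vertex {U : Finset Fc} {ω : Fc → Bool} {p q : Pos} (hp : IsTip U ω p)
    (hq : IsTip U ω q) (h : p.1 = q.1) : p = q := by
  obtain ⟨v, k⟩ := p
  obtain ⟨w, l⟩ := q
  simp only at h
  subst h
  by_cases hkl : k = l
  · rw [hkl]
  · exfalso
    rcases fin3_a k l hkl with e | e
    · exact hp.2.1 (by show fc v (k + 1) ∈ U; rw [← e]; exact hq.1)
    · exact hp.2.2.1 (by show fc v (k + 2) ∈ U; rw [← e]; exact hq.1)

theorem tip_chg {U : Finset Fc} {ω : Fc → Bool} {p : Pos} (hp : IsTip U ω p) : chg U ω p.1 := by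
  refine ⟨p.2, hp.1, hp.2.1, hp.2.2.1, ?_⟩
  have h1 : ω (fc p.1 (p.2 + 1)) = true := hp.2.2.2.1
  have h2 : ω (fc p.1 (p.2 + 2)) = false := hp.2.2.2.2
  rw [h1, h2]; decide

theorem exit_faces {p : Pos} :
    fc (nb p.1 p.2) p.2 = pb p ∧ fc (nb p.1 p.2) (p.2 + 1) = pr p ∧
    fc (nb p.1 p.2) (p.2 + 2) = pl p := by
  refine ⟨rfl, ?_, ?_⟩
  · rw [fc_nb1]; rfl
  · rw [fc_nb2]; rfl

theorem exit_chg {U : Finset Fc} {ω : Fc → Bool} {p : Pos} (hp : IsExit U ω p) :
    chg U ω (nb p.1 p.2) := by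
  obtain ⟨e1, e2, e3⟩ := exit_faces (p := p)
  refine ⟨p.2, by rw [e1]; exact hp.1, by rw [e2]; exact hp.2.2.1, by rw [e3]; exact hp.2.1, ?_⟩
  rw [e2, e3, hp.2.2.2.1, hp.2.2.2.2]; decide

theorem tip_ne_exit {U : Finset Fc} {ω : Fc → Bool} {p e : Pos} (hp : IsTip U ω p)
    (he : IsExit U ω e) : p.1 ≠ nb e.1 e.2 := by
  intro h
  obtain ⟨e1, e2, e3⟩ := exit_faces (p := e)
  rw [← h] at e1 e2 e3
  by_cases hk : p.2 = e.2
  · rw [← hk] at e2
    have h1 : ω (pl p) = true := hp.2.2.2.1
    have h2 : pl p = pr e := e2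
    rw [h2, he.2.2.2.2] at h1
    exact absurd h1 (by decide)
  · rcases fin3_a p.2 e.2 hk with h1 | h1
    · apply hp.2.1
      show fc p.1 (p.2 + 1) ∈ U
      rw [← h1, e1]; exact he.1
    · apply hp.2.2.1
      show fc p.1 (p.2 + 2) ∈ U
      rw [← h1, e1]; exact he.1

/-- **TipU** -/
theorem tipU : TipU := by
  intro U ω hS p q hp hq
  obtain ⟨n, _, _, he⟩ := int1 U ω p hp
  rcases hS.two _ _ _ (tip_chg hp) (tip_chg hq) (exit_chg he) with h | h | h
  · exact tip_vertex hp hq h
  · exact absurd h (tip_ne_exit hp he)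
  · exact absurd h (tip_ne_exit hq he)

/-- the previous position -/
def prd (ω : Fc → Bool) (p : Pos) : Pos :=
  (nb p.1 p.2, if ω (pb p) = true then p.2 + 2 else p.2 + 1)

theorem prd_spec {ω : Fc → Bool} {p : Pos} (h : Bi ω p) : Bi ω (prd ω p) ∧ stp ω (prd ω p) = p := by
  obtain ⟨v, k⟩ := p
  have a1 : ∀ k : Fin 3, k + 2 + 1 = k := by decide
  have a2 : ∀ k : Fin 3, k + 2 + 2 = k + 1 := by decide
  have a3 : ∀ k : Fin 3, k + 1 + 1 = k + 2 := by decide
  have a4 : ∀ k : Fin 3, k + 1 + 2 = k := by decide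
  cases hb : ω (pb (v, k))
  · have e : prd ω (v, k) = (nb v k, k + 1) := by unfold prd; rw [if_neg (by simp [hb])]
    rw [e]
    have h1 : pl (nb v k, k + 1) = pl (v, k) := by
      show fc (nb v k) (k + 1 + 1) = fc v (k + 1)
      rw [a3, fc_nb2]
    have h2 : pr (nb v k, k + 1) = pb (v, k) := by
      show fc (nb v k) (k + 1 + 2) = fc (nb v k) k
      rw [a4]
    have h3 : ph (nb v k, k + 1) = pr (v, k) := by
      show fc (nb v k) (k + 1) = fc v (k + 2)
      rw [fc_nb1]
    refine ⟨⟨by rw [h1]; exact h.1, by rw [h2]; exact hb⟩, ?_⟩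
    unfold stp
    rw [h3, h.2]
    simp only [Bool.false_eq_true, if_false]
    rw [a4, nb_nb]
  · have e : prd ω (v, k) = (nb v k, k + 2) := by unfold prd; rw [if_pos hb]
    rw [e]
    have h1 : pl (nb v k, k + 2) = pb (v, k) := by
      show fc (nb v k) (k + 2 + 1) = fc (nb v k) k
      rw [a1]
    have h2 : pr (nb v k, k + 2) = pr (v, k) := by
      show fc (nb v k) (k + 2 + 2) = fc v (k + 2)
      rw [a2, fc_nb1]
    have h3 : ph (nb v k, k + 2) = pl (v, k) := by
      show fc (nb v k) (k + 2) = fc v (k + 1)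
      rw [fc_nb2]
    refine ⟨⟨by rw [h1]; exact hb, by rw [h2]; exact h.2⟩, ?_⟩
    unfold stp
    rw [h3, h.1]
    simp only [if_true]
    rw [a1, nb_nb]

/-- a position is determined by its edge -/
theorem pe_inj {ω : Fc → Bool} {p q : Pos} (hp : Bi ω p) (hq : Bi ω q) (h : pe p = pe q) :
    p = q := by
  obtain ⟨v, k⟩ := p
  obtain ⟨w, l⟩ := q
  obtain ⟨rfl, h1 | h1⟩ := (ed_eq_iff v w k l).1 h
  · rw [h1]
  · exfalso
    have h2 : ω (fc w (k + 1)) = true := hq.1
    rw [h1, fc_nb1] at h2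
    have h3 : ω (fc v (k + 2)) = false := hp.2
    rw [h3] at h2
    exact absurd h2 (by decide)

section Loop

variable {ω : Fc → Bool} {T : Set Pos}

/-- a set of positions closed under steps in both directions is a cycle mod 2 -/
theorem loop_dv (hB : ∀ r ∈ T, Bi ω r) (hs : ∀ r ∈ T, stp ω r ∈ T) (hp : ∀ r ∈ T, prd ω r ∈ T)
    (v : Vx) : dv (ind (pe '' T)) v = 0 := by
  -- edges of `T` at `v`
  have mono : ∀ k : Fin 3, ω (fc v (k + 1)) = ω (fc v (k + 2)) → ind (pe '' T) (ed v k) = 0 := by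
    intro k hk
    apply ind_not
    rintro ⟨r, hr, he⟩
    have hb := hB r hr
    obtain ⟨w, l⟩ := r
    obtain ⟨rfl, h1 | h1⟩ := (ed_eq_iff w v l k).1 he
    · subst h1
      have h2 : ω (fc v (l + 1)) = true := hb.1
      have h3 : ω (fc v (l + 2)) = false := hb.2
      rw [h2, h3] at hk
      exact absurd hk (by decide)
    · subst h1
      rw [fc_nb1, fc_nb2] at hk
      have h2 : ω (fc w (l + 1)) = true := hb.1
      have h3 : ω (fc w (l + 2)) = false := hb.2
      rw [h2, h3] at hk
      exact absurd hk (by decide)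
  -- if some edge at `v` is in `T` then `v` is a head
  have head : (∃ k, ind (pe '' T) (ed v k) ≠ 0) → ∃ k, (v, k) ∈ T := by
    rintro ⟨k, hk⟩
    have hm : ed v k ∈ pe '' T := by
      by_contra hn
      exact hk (ind_not hn)
    obtain ⟨⟨w, l⟩, hr, he⟩ := hm
    obtain ⟨rfl, h1 | h1⟩ := (ed_eq_iff w v l k).1 he
    · subst h1; exact ⟨l, hr⟩
    · subst h1
      have := hp _ hr
      exact ⟨_, this⟩
  by_cases hh : ∃ k, ind (pe '' T) (ed v k) ≠ 0
  · obtain ⟨k, hk⟩ := head hh
    have hb := hB _ hk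
    have h1 : ω (fc v (k + 1)) = true := hb.1
    have h2 : ω (fc v (k + 2)) = false := hb.2
    have e0 : ind (pe '' T) (ed v k) = 1 := ind_mem ⟨_, hk, rfl⟩
    have hst := hs _ hk
    have a1 : ∀ k : Fin 3, k + 2 + 1 = k := by decide
    have a2 : ∀ k : Fin 3, k + 2 + 2 = k + 1 := by decide
    have a3 : ∀ k : Fin 3, k + 1 + 1 = k + 2 := by decide
    have a4 : ∀ k : Fin 3, k + 1 + 2 = k := by decide
    have hsum : dv (ind (pe '' T)) v = ind (pe '' T) (ed v k) + ind (pe '' T) (ed v (k + 1)) +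
        ind (pe '' T) (ed v (k + 2)) := by
      have key : ∀ (f : Fin 3 → ZMod 2) (k : Fin 3), f 0 + f 1 + f 2 = f k + f (k + 1) + f (k + 2) := by
        decide
      exact key (fun i => ind (pe '' T) (ed v i)) k
    rw [hsum, e0]
    cases hc : ω (fc v k)
    · have e2 : ind (pe '' T) (ed v (k + 2)) = 1 := by
        apply ind_mem
        refine ⟨_, hst, ?_⟩
        unfold stp
        rw [if_neg (by show ¬ ω (fc v k) = true; simp [hc])]
        exact ed_nb v (k + 2)
      have e1 : ind (pe '' T) (ed v (k + 1)) = 0 := by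
        apply mono
        rw [a3, a4, h2, hc]
      rw [e1, e2]; decide
    · have e2 : ind (pe '' T) (ed v (k + 1)) = 1 := by
        apply ind_mem
        refine ⟨_, hst, ?_⟩
        unfold stp
        rw [if_pos (by show ω (fc v k) = true; exact hc)]
        exact ed_nb v (k + 1)
      have e1 : ind (pe '' T) (ed v (k + 2)) = 0 := by
        apply mono
        rw [a1, a2, h1, hc]
      rw [e1, e2]; decide
  · push Not at hh
    unfold dv
    rw [hh, hh, hh]; rfl

/-- the loop bounds a set which is constant along faces of one colour -/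
theorem loop_const {x : Ed → ZMod 2} (hB : ∀ r ∈ T, Bi ω r) (hx : ∀ e, x e = ind (pe '' T) e)
    {s : Finset Fc} (hs : ∀ e, x e = bd ↑s e) {f g : Fc} (ha : adjF f g) (hc : ω f = ω g) :
    (f ∈ s ↔ g ∈ s) := by
  obtain ⟨e, he⟩ := ha
  have h0 : x e = 0 := by
    rw [hx]
    apply ind_not
    rintro ⟨r, hr, hre⟩
    have hb := hB r hr
    rcases pe_faces r with h | h <;> rcases he with h' | h' <;> rw [hre, h'.1, h'.2] at h
    · rw [h.1, h.2, hb.1, hb.2] at hc; exact absurd hc (by decide)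
    · rw [h.1, h.2, hb.1, hb.2] at hc; exact absurd hc (by decide)
    · rw [h.1, h.2, hb.1, hb.2] at hc; exact absurd hc (by decide)
    · rw [h.1, h.2, hb.1, hb.2] at hc; exact absurd hc (by decide)
  rw [hs] at h0
  unfold bd at h0
  have h1 : ind (↑s : Set Fc) f + ind (↑s : Set Fc) g = 0 := by
    rcases he with h' | h'
    · rw [h'.1, h'.2] at h0; exact h0
    · rw [h'.1, h'.2, add_comm] at h0; exact h0
  constructor
  · intro hf
    by_contra hg
    rw [ind_mem (by exact_mod_cast hf), ind_not (by exact_mod_cast hg)] at h1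
    exact absurd h1 (by decide)
  · intro hg
    by_contra hf
    rw [ind_not (by exact_mod_cast hf), ind_mem (by exact_mod_cast hg)] at h1
    exact absurd h1 (by decide)

end Loop

/-- along the orbit the left faces stay in `s` or out of `s` -/
theorem left_const {ω : Fc → Bool} {p : Pos} (hb : Bi ω p) {s : Finset Fc}
    (hs : ∀ f g, adjF f g → ω f = ω g → (f ∈ s ↔ g ∈ s)) (i : ℕ) :
    (pl (orb ω p i) ∈ s ↔ pl p ∈ s) ∧ (pr (orb ω p i) ∈ s ↔ pr p ∈ s) := by
  induction i with
  | zero => exact ⟨Iff.rfl, Iff.rfl⟩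
  | succ i ih =>
    have hbi := hb.orb i
    rw [orb_succ]
    cases hp : ω (ph (orb ω p i))
    · rw [(stp_white hp).1, (stp_white hp).2]
      refine ⟨ih.1, ?_⟩
      rw [hs _ _ (adj_hr _) (by rw [hp, hbi.2])]
      exact ih.2
    · rw [(stp_black hp).1, (stp_black hp).2]
      refine ⟨?_, ih.2⟩
      rw [hs _ _ (adj_hl _) (by rw [hp, hbi.1])]
      exact ih.1

/-- revealed faces are joined to the outside by revealed faces -/
theorem rev_out {U : Finset Fc} {ω : Fc → Bool} {p : Pos} (hp : IsTip U ω p) (n : ℕ)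
    {K : Finset Fc} (hK : ∀ f, f ∈ K ↔ f ∈ U ∧ f ∈ Rev ω p n) (i : ℕ) (hi : i ≤ n) :
    (pl (orb ω p i) ∈ U → ∃ g, Jn (↑K : Set Fc) (pl (orb ω p i)) g ∧ ∃ x, x ∉ U ∧ adjF g x) ∧
    (pr (orb ω p i) ∈ U → ∃ g, Jn (↑K : Set Fc) (pr (orb ω p i)) g ∧ ∃ x, x ∉ U ∧ adjF g x) := by
  induction i with
  | zero => exact ⟨fun h => absurd h hp.2.1, fun h => absurd h hp.2.2.1⟩
  | succ i ih =>
    have ih' := ih (by omega)
    rw [orb_succ]
    cases hc : ω (ph (orb ω p i))
    · rw [(stp_white hc).1, (stp_white hc).2]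
      refine ⟨ih'.1, fun _ => ?_⟩
      by_cases hU : pr (orb ω p i) ∈ U
      · obtain ⟨g, h1, h2⟩ := ih'.2 hU
        refine ⟨g, (Jn.single ?_ (adj_hr _)).trans h1, h2⟩
        exact Finset.mem_coe.2 ((hK _).2 ⟨hU, i, by omega, Or.inr rfl⟩)
      · exact ⟨_, Jn.refl _, _, hU, adj_hr _⟩
    · rw [(stp_black hc).1, (stp_black hc).2]
      refine ⟨fun _ => ?_, ih'.2⟩
      by_cases hU : pl (orb ω p i) ∈ U
      · obtain ⟨g, h1, h2⟩ := ih'.1 hU
        refine ⟨g, (Jn.single ?_ (adj_hl _)).trans h1, h2⟩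
        exact Finset.mem_coe.2 ((hK _).2 ⟨hU, i, by omega, Or.inl rfl⟩)
      · exact ⟨_, Jn.refl _, _, hU, adj_hl _⟩

/-- a domain touched by both colours has a change vertex -/
theorem exists_chg (h1b : D1b) {W : Finset Fc} (hW : IsDom W) {ω : Fc → Bool} {f g : Fc}
    (hf : f ∉ W) (hg : g ∉ W) (hfW : tch ↑W f) (hgW : tch ↑W g) (hfg : ω f ≠ ω g) :
    ∃ v, chg W ω v := by
  classical
  by_contra hno
  push Not at hno
  -- boundary edges whose outer face is black
  set A : Set Ed := {e | isB W e ∧ ((lf e ∉ W ∧ ω (lf e) = true) ∨ (rf e ∉ W ∧ ω (rf e) = true))}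
    with hA
  have hval : ∀ v k, (fc v (k + 1) ∈ W → fc v (k + 2) ∉ W → (ed v k ∈ A ↔ ω (fc v (k + 2)) = true)) ∧
      (fc v (k + 1) ∉ W → fc v (k + 2) ∈ W → (ed v k ∈ A ↔ ω (fc v (k + 1)) = true)) ∧
      (fc v (k + 1) ∈ W → fc v (k + 2) ∈ W → ed v k ∉ A) ∧
      (fc v (k + 1) ∉ W → fc v (k + 2) ∉ W → ed v k ∉ A) := by
    intro v k
    simp only [hA, Set.mem_ofPred_eq, isB]
    rcases ed_faces v k with h | h <;> rw [h.1, h.2] <;> tauto
  have hdv : ∀ v, dv (ind A) v = 0 := by
    intro v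
    unfold dv
    have hab : ∀ a b : ZMod 2, a = b → a + b = 0 := by decide
    have iv : ∀ (e : Ed) (P : Prop) [Decidable P], (e ∈ A ↔ P) → ind A e = if P then 1 else 0 := by
      intro e P _ h
      by_cases hP : P
      · rw [if_pos hP]; exact ind_mem (h.2 hP)
      · rw [if_neg hP]; exact ind_not (fun h' => hP (h.1 h'))
    have f01 : (0 : Fin 3) + 1 = 1 := rfl
    have f02 : (0 : Fin 3) + 2 = 2 := rfl
    have f11 : (1 : Fin 3) + 1 = 2 := rfl
    have f12 : (1 : Fin 3) + 2 = 0 := rfl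
    have f21 : (2 : Fin 3) + 1 = 0 := rfl
    have f22 : (2 : Fin 3) + 2 = 1 := rfl
    have c0 := hval v 0
    have c1 := hval v 1
    have c2 := hval v 2
    rw [f01, f02] at c0
    rw [f11, f12] at c1
    rw [f21, f22] at c2
    have nc : ∀ k, fc v k ∈ W → fc v (k + 1) ∉ W → fc v (k + 2) ∉ W →
        ω (fc v (k + 1)) = ω (fc v (k + 2)) := by
      intro k h1 h2 h3
      by_contra h4
      exact hno v ⟨k, h1, h2, h3, h4⟩
    have n0 := nc 0
    have n1 := nc 1
    have n2 := nc 2
    rw [f01, f02] at n0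
    rw [f11, f12] at n1
    rw [f21, f22] at n2
    by_cases w0 : fc v 0 ∈ W <;> by_cases w1 : fc v 1 ∈ W <;> by_cases w2 : fc v 2 ∈ W
    · rw [ind_not (c0.2.2.1 w1 w2), ind_not (c1.2.2.1 w2 w0), ind_not (c2.2.2.1 w0 w1)]; rfl
    · -- outer face 2: edges 0 and 1
      rw [iv _ _ (c0.1 w1 w2), iv _ _ (c1.2.1 w2 w0), ind_not (c2.2.2.1 w0 w1), add_zero]
      exact two_zmod _
    · -- outer face 1: edges 0 and 2
      rw [iv _ _ (c0.2.1 w1 w2), ind_not (c1.2.2.1 w2 w0), iv _ _ (c2.1 w0 w1), add_zero]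
      exact two_zmod _
    · -- only face 0 inside: edges 1 (outer 2), 2 (outer 1)
      rw [ind_not (c0.2.2.2 w1 w2), iv _ _ (c1.2.1 w2 w0), iv _ _ (c2.1 w0 w1), zero_add,
        n0 w0 w1 w2]
      exact two_zmod _
    · -- outer face 0: edges 1, 2
      rw [ind_not (c0.2.2.1 w1 w2), iv _ _ (c1.1 w2 w0), iv _ _ (c2.2.1 w0 w1), zero_add]
      exact two_zmod _
    · -- only face 1 inside: edges 0 (outer 2), 2 (outer 0)
      rw [iv _ _ (c0.1 w1 w2), ind_not (c1.2.2.2 w2 w0), iv _ _ (c2.2.1 w0 w1), add_zero,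
        n1 w1 w2 w0]
      exact two_zmod _
    · -- only face 2 inside: edges 0 (outer 1), 1 (outer 0)
      rw [iv _ _ (c0.2.1 w1 w2), iv _ _ (c1.1 w2 w0), ind_not (c2.2.2.2 w0 w1), add_zero,
        n2 w2 w0 w1]
      exact two_zmod _
    · rw [ind_not (c0.2.2.2 w1 w2), ind_not (c1.2.2.2 w2 w0), ind_not (c2.2.2.2 w0 w1)]; rfl
  have hcase := h1b W hW (ind A) (fun e he => by
    by_contra hn
    exact he (ind_not fun h => hn h.1)) hdv
  -- the edge of a touching face
  have hedge : ∀ f, f ∉ W → tch ↑W f → ∃ e, isB W e ∧ (e ∈ A ↔ ω f = true) := by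
    rintro f hf ⟨g, hg, e, he⟩
    have hg' : g ∈ W := by exact_mod_cast hg
    refine ⟨e, ?_, ?_⟩
    · unfold isB
      rcases he with h | h <;> rw [h.1, h.2] <;> tauto
    · simp only [hA, Set.mem_ofPred_eq, isB]
      rcases he with h | h <;> rw [h.1, h.2] <;> tauto
  obtain ⟨e, he1, he2⟩ := hedge f hf hfW
  obtain ⟨e', he1', he2'⟩ := hedge g hg hgW
  rcases hcase with h | h
  · have h1 : e ∉ A := fun hh => by
      have := h e; rw [ind_mem hh] at this; exact absurd this (by decide)
    have h2 : e' ∉ A := fun hh => by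
      have := h e'; rw [ind_mem hh] at this; exact absurd this (by decide)
    rw [he2] at h1
    rw [he2'] at h2
    simp only [Bool.not_eq_true] at h1 h2
    exact hfg (by rw [h1, h2])
  · have h1 : e ∈ A := by
      by_contra hh
      have := h e he1; rw [ind_not hh] at this; exact absurd this (by decide)
    have h2 : e' ∈ A := by
      by_contra hh
      have := h e' he1'; rw [ind_not hh] at this; exact absurd this (by decide)
    rw [he2] at h1
    rw [he2'] at h2
    exact hfg (by rw [h1, h2])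

/-- a set with a change vertex has a tip -/
theorem exists_tip {W : Finset Fc} {ω : Fc → Bool} {v : Vx} (h : chg W ω v) :
    ∃ q, IsTip W ω q := by
  obtain ⟨k, h1, h2, h3, h4⟩ := h
  cases ha : ω (fc v (k + 1))
  · have hb : ω (fc v (k + 2)) = true := by
      rw [ha] at h4
      cases hh : ω (fc v (k + 2))
      · rw [hh] at h4; exact absurd rfl h4
      · rfl
    -- exchange the colours
    have ht : IsTip W (fun f => !ω f) (v, k) := by
      refine ⟨h1, h2, h3, ?_, ?_⟩
      · show (!ω (fc v (k + 1))) = true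
        rw [ha]; rfl
      · show (!ω (fc v (k + 2))) = false
        rw [hb]; rfl
    obtain ⟨n, _, _, he⟩ := int1 W _ _ ht
    set e := orb (fun f => !ω f) (v, k) (n + 1)
    obtain ⟨e1, e2, e3⟩ := exit_faces (p := e)
    refine ⟨(nb e.1 e.2, e.2), ?_, ?_, ?_, ?_, ?_⟩
    · show fc (nb e.1 e.2) e.2 ∈ W
      rw [e1]; exact he.1
    · show fc (nb e.1 e.2) (e.2 + 1) ∉ W
      rw [e2]; exact he.2.2.1
    · show fc (nb e.1 e.2) (e.2 + 2) ∉ W
      rw [e3]; exact he.2.1
    · show ω (fc (nb e.1 e.2) (e.2 + 1)) = true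
      have := he.2.2.2.2
      rw [e2]
      simpa using this
    · show ω (fc (nb e.1 e.2) (e.2 + 2)) = false
      have := he.2.2.2.1
      rw [e3]
      simpa using this
  · have hb : ω (fc v (k + 2)) = false := by
      rw [ha] at h4
      cases hh : ω (fc v (k + 2))
      · rfl
      · rw [hh] at h4; exact absurd rfl h4
    exact ⟨(v, k), h1, h2, h3, ha, hb⟩

/-- **Int2** -/
theorem int2 (h1 : D1) (h1b : D1b) : Int2 := by
  classical
  intro U ω hS p n hp hE W hWU hWR hWc hWm f g hf hg hfW hgW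
  by_contra hfg
  obtain ⟨hn1, hn2, hex⟩ := hE
  obtain ⟨z, hz⟩ : W.Nonempty := by
    obtain ⟨a, ha, _⟩ := hfW
    exact ⟨a, by exact_mod_cast ha⟩
  -- `W` is a domain
  set K : Finset Fc := U.filter (fun f => f ∈ Rev ω p n) with hKdef
  have hK : ∀ f, f ∈ K ↔ f ∈ U ∧ f ∈ Rev ω p n := fun f => Finset.mem_filter
  have hdom : IsDom (comp (U \ K) z) := by
    apply isDom_comp hS.dom K _ (hWU hz)
    · intro h
      exact hWR z hz ((hK z).1 h).2
    · intro f hfK
      obtain ⟨hfU, i, hi, h | h⟩ := (hK f).1 hfK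
      · subst h; exact (rev_out hp n hK i hi).1 hfU
      · subst h; exact (rev_out hp n hK i hi).2 hfU
  have hWcomp : comp (U \ K) z = W := by
    have hsub : (↑W : Set Fc) ⊆ ↑(U \ K) := by
      intro f hf
      rw [Finset.mem_coe] at hf
      rw [Finset.mem_coe, Finset.mem_sdiff]
      exact ⟨hWU hf, fun h => hWR f hf ((hK f).1 h).2⟩
    ext f
    constructor
    · intro hf
      by_contra hfn
      obtain ⟨a, b, _, ha, hb, hbW, hab, _⟩ :=
        (mem_comp.1 hf).2.exit (A := ↑W) (by exact_mod_cast hz) (by exact_mod_cast hfn)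
      have hb' : b ∈ U \ K := by exact_mod_cast hb
      rw [Finset.mem_sdiff] at hb'
      apply hb'.2
      rw [hK]
      refine ⟨hb'.1, hWm b hb'.1 (by exact_mod_cast hbW) ?_⟩
      exact ⟨a, ha, adjF_symm hab⟩
    · intro hf
      exact sub_comp hsub (fun f hf => hWc z hz f (by exact_mod_cast hf)) f (by exact_mod_cast hf)
  rw [hWcomp] at hdom
  obtain ⟨v, hv⟩ := exists_chg h1b hdom hf hg hfW hgW hfg
  obtain ⟨q, hq⟩ := exists_tip hv
  obtain ⟨hq1, hq2, hq3, hqB⟩ := hq
  have hpB := hp.2.2.2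
  -- `q` is not on the orbit
  have hqn : ∀ i, i ≤ n → orb ω p i ≠ q := by
    intro i hi he
    rcases Nat.lt_or_ge i n with hlt | hge
    · apply hWR _ hq1
      refine ⟨i + 1, by omega, ?_⟩
      rw [orb_succ, he]
      cases hc : ω (ph q)
      · right; exact ((stp_white hc).2).symm
      · left; exact ((stp_black hc).1).symm
    · have hin : i = n := by omega
      have h4 : inE U (pe (orb ω p (n + 1))) := by
        rw [orb_succ, ← hin, he]
        exact inE_step (hWU hq1)
      rw [inE_pe] at h4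
      rcases h4 with h4 | h4
      · exact hex.2.1 h4
      · exact hex.2.2.1 h4
  -- the backward orbit of `q`
  have hbk : ∀ i, Bi ω ((prd ω)^[i] q) := by
    intro i
    induction i with
    | zero => exact hqB
    | succ i ih =>
      rw [Function.iterate_succ_apply']
      exact (prd_spec ih).1
  have hbs : ∀ i, stp ω ((prd ω)^[i + 1] q) = (prd ω)^[i] q := by
    intro i
    rw [Function.iterate_succ_apply']
    exact (prd_spec (hbk i)).2
  have hfw : ∀ i j, orb ω ((prd ω)^[i + j] q) i = (prd ω)^[j] q := by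
    intro i
    induction i with
    | zero => intro j; rw [Nat.zero_add]; rfl
    | succ i ih =>
      intro j
      rw [orb_succ]
      have e : i + 1 + j = i + (j + 1) := by omega
      rw [e, ih (j + 1)]
      exact hbs j
  by_cases hall : ∀ i, inE U (pe ((prd ω)^[i] q))
  · -- a closed strand
    obtain ⟨m, hm, hper⟩ : ∃ m, 1 ≤ m ∧ (prd ω)^[m] q = q := by
      have hmaps : Set.MapsTo (fun i => (prd ω)^[i] q) Set.univ {q : Pos | inE U (pe q)} :=
        fun i _ => hall i
      have hni : ¬ Set.InjOn (fun i => (prd ω)^[i] q) Set.univ := by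
        intro hinj
        exact Set.infinite_univ (Set.Finite.of_finite_image
          ((pos_finite U).subset (Set.mapsTo_iff_image_subset.1 hmaps)) hinj)
      unfold Set.InjOn at hni
      push Not at hni
      obtain ⟨i, _, j, _, hij, hne⟩ := hni
      have key : ∀ i j, i < j → (prd ω)^[i] q = (prd ω)^[j] q → ∃ m, 1 ≤ m ∧ (prd ω)^[m] q = q := by
        intro i j hij h
        refine ⟨j - i, by omega, ?_⟩
        have e1 := hfw i 0
        have e2 := hfw i (j - i)
        have e3 : i + (j - i) = j := by omega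
        rw [e3] at e2
        rw [Nat.add_zero, h, e2] at e1
        exact e1
      rcases lt_or_gt_of_ne hne with h | h
      · exact key i j h hij
      · exact key j i h hij.symm
    set T : Set Pos := {r | ∃ i, r = (prd ω)^[i] q} with hT
    have hTB : ∀ r ∈ T, Bi ω r := by rintro r ⟨i, rfl⟩; exact hbk i
    have hTp : ∀ r ∈ T, prd ω r ∈ T := by
      rintro r ⟨i, rfl⟩
      exact ⟨i + 1, by rw [Function.iterate_succ_apply']⟩
    have hTs : ∀ r ∈ T, stp ω r ∈ T := by
      rintro r ⟨i, rfl⟩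
      cases i with
      | zero =>
        refine ⟨m - 1, ?_⟩
        have e : m = (m - 1) + 1 := by omega
        have h5 := hbs (m - 1)
        rw [← e, hper] at h5
        exact h5
      | succ i => exact ⟨i, hbs i⟩
    have hTU : ∀ e, ind (pe '' T) e ≠ 0 → inE U e := by
      intro e he
      have : e ∈ pe '' T := by
        by_contra hn
        exact he (ind_not hn)
      obtain ⟨r, ⟨i, rfl⟩, rfl⟩ := this
      exact hall i
    obtain ⟨s, hsU, hs⟩ := h1 U hS.dom (ind (pe '' T)) hTU (loop_dv hTB hTs hTp)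
    have hconst : ∀ f g, adjF f g → ω f = ω g → (f ∈ s ↔ g ∈ s) := fun f g ha hc =>
      loop_const (x := ind (pe '' T)) hTB (fun _ => rfl) hs ha hc
    have hleft : pl q ∉ s := by
      intro hin
      have hqU : pl q ∈ U := hsU hin
      have hR : pl q ∈ Rev ω p n := hWm _ hqU hq2 ⟨ph q, by exact_mod_cast hq1, adjF_symm (adj_hl q)⟩
      obtain ⟨i, _, h | h⟩ := hR
      · rw [h] at hin
        exact hp.2.1 (hsU ((left_const hpB hconst i).1.1 hin))
      · have h5 := hqB.1
        rw [h, (hpB.orb i).2] at h5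
        exact absurd h5 (by decide)
    have hright : pr q ∉ s := by
      intro hin
      have hqU : pr q ∈ U := hsU hin
      have hR : pr q ∈ Rev ω p n := hWm _ hqU hq3 ⟨ph q, by exact_mod_cast hq1, adjF_symm (adj_hr q)⟩
      obtain ⟨i, _, h | h⟩ := hR
      · have h5 := hqB.2
        rw [h, (hpB.orb i).1] at h5
        exact absurd h5 (by decide)
      · rw [h] at hin
        exact hp.2.2.1 (hsU ((left_const hpB hconst i).2.1 hin))
    have h6 : ind (pe '' T) (pe q) = 1 := ind_mem ⟨q, ⟨0, rfl⟩, rfl⟩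
    rw [hs] at h6
    unfold bd at h6
    have i1 : ind (↑s : Set Fc) (pl q) = 0 := ind_not (by exact_mod_cast hleft)
    have i2 : ind (↑s : Set Fc) (pr q) = 0 := ind_not (by exact_mod_cast hright)
    rcases pe_faces q with h | h <;> rw [h.1, h.2, i1, i2] at h6 <;> exact absurd h6 (by decide)
  · push Not at hall
    have hi0 := Nat.find_spec hall
    set i := Nat.find hall with hi
    have hmin : ∀ j, j < i → inE U (pe ((prd ω)^[j] q)) := by
      intro j hj
      by_contra hn
      exact Nat.find_min hall hj hn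
    -- the position `i` is a tip of `U`
    have htip : IsTip U ω ((prd ω)^[i] q) := by
      rw [inE_pe] at hi0
      push Not at hi0
      refine ⟨?_, hi0.1, hi0.2, hbk i⟩
      rcases Nat.eq_zero_or_pos i with h0 | hpos
      · rw [h0]; exact hWU hq1
      · have e : i = (i - 1) + 1 := by omega
        have h7 := hmin (i - 1) (by omega)
        have h8 := hbs (i - 1)
        rw [← e] at h8
        rw [← h8, inE_pe] at h7
        cases hc : ω (ph ((prd ω)^[i] q))
        · rw [(stp_white hc).1, (stp_white hc).2] at h7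
          exact h7.resolve_left hi0.1
        · rw [(stp_black hc).1, (stp_black hc).2] at h7
          exact h7.resolve_right hi0.2
    have hpi : p = (prd ω)^[i] q := tipU U ω hS _ _ hp htip
    have horb : orb ω p i = q := by
      have := hfw i 0
      rw [Nat.add_zero, ← hpi] at this
      exact this
    rcases Nat.lt_or_ge n i with hlt | hge
    · have h9 : orb ω p (n + 1) = (prd ω)^[i - (n + 1)] q := by
        have := hfw (n + 1) (i - (n + 1))
        have e : n + 1 + (i - (n + 1)) = i := by omega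
        rw [e, ← hpi] at this
        exact this
      have h10 := hmin (i - (n + 1)) (by omega)
      rw [← h9, inE_pe] at h10
      rcases h10 with h | h
      · exact hex.2.1 h
      · exact hex.2.2.1 h
    · exact hqn i hge horb

end Pool.Agent.H98.Tri
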